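import Pool.Agent.Helper38.LL.MN
import Pool.Agent.Helper71.Cube.Main
import Pool.Agent.Helper88.BM.Ball
import Pool.Agent.Helper88.BM.Spaces
import Pool.Agent.Helper96.RU.Top

/-!
# The maximal Banach-Mazur distance to the cube is of the order `n ^ (2/3) / (log n) ^ (1/6)`
-/

namespace Pool.Agent.Results.MP_a64d16_an.ExactOrder

/-- The Banach-Mazur distance of two real normed spaces: the infimum of `‖T‖ ‖T⁻¹‖` over the
linear isomorphisms `T : X → Y`. -/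
noncomputable def bmDist (X Y : Type) [NormedAddCommGroup X] [NormedSpace ℝ X]
    [NormedAddCommGroup Y] [NormedSpace ℝ Y] : ℝ :=
  sInf {d : ℝ | ∃ T : X ≃L[ℝ] Y, d = ‖(T : X →L[ℝ] Y)‖ * ‖(T.symm : Y →L[ℝ] X)‖}

/-- The distances `d(X, ℓ_∞^n)` of all real normed spaces `X` of dimension `n` (`Fin n → ℝ` carries
the supremum norm). -/
def distances (n : ℕ) : Set ℝ :=
  {d : ℝ | ∃ (X : Type) (_ : NormedAddCommGroup X) (_ : NormedSpace ℝ X),
    Module.finrank ℝ X = n ∧ d = bmDist X (Fin n → ℝ)}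

/-- `R_∞^n`, the largest distance of a normed space of dimension `n` to `ℓ_∞^n`. -/
noncomputable def Rinf (n : ℕ) : ℝ := sSup (distances n)

/-- A basis for all bodies in position gives a bound of all distances. -/
theorem le_of_cube_basis {n : ℕ} (hn : 0 < n) {D : ℝ}
    (H : ∀ (B : Set (Fin n → ℝ)), IsCompact B → Convex ℝ B → (∀ z ∈ B, -z ∈ B) →
      ∀ r : ℝ, 0 < r → (∀ i : Fin n, Pi.single i r ∈ B) →
      ∃ b : Fin n → Fin n → ℝ, (∀ i, b i ∈ B) ∧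
        ∀ z ∈ B, ∃ c : Fin n → ℝ, z = ∑ i, c i • b i ∧ ∑ i, |c i| ≤ D) :
    ∀ d ∈ distances n, d ≤ D := by
  have hpos : ∀ B : Set (EuclideanSpace ℝ (Fin n)), Pool.Agent.BM.IsPos n B →
      ∃ y : Fin n → EuclideanSpace ℝ (Fin n), (∀ i, y i ∈ B) ∧
        ∀ z ∈ B, ∃ c : Fin n → ℝ, z = ∑ i, c i • y i ∧ ∑ i, |c i| ≤ D := by
    intro B hB
    let e : EuclideanSpace ℝ (Fin n) ≃L[ℝ] (Fin n → ℝ) := EuclideanSpace.equiv (Fin n) ℝ
    have hn0 : (0 : ℝ) < n := by exact_mod_cast hn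
    obtain ⟨b, hb, hb2⟩ := H (e '' B)
      (hB.compact.image e.continuous) (hB.convex.linear_image e.toLinearEquiv.toLinearMap)
      (by
        rintro _ ⟨z, hz, rfl⟩
        exact ⟨-z, hB.symm z hz, map_neg e z⟩)
      (Real.sqrt n)⁻¹ (inv_pos.2 (Real.sqrt_pos.2 hn0))
      (by
        intro i
        refine ⟨(Real.sqrt n)⁻¹ • EuclideanSpace.basisFun (Fin n) ℝ i, hB.ball _ ?_, ?_⟩
        · rw [norm_smul, OrthonormalBasis.norm_eq_one, mul_one, norm_inv, Real.norm_eq_abs,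
            inv_pow, sq_abs, Real.sq_sqrt hn0.le, mul_inv_cancel₀ hn0.ne']
        · funext j
          simp [e, Pi.single_apply])
    refine ⟨fun i => e.symm (b i), ?_, ?_⟩
    · intro i
      obtain ⟨z, hz, hzb⟩ := hb i
      show e.symm (b i) ∈ B
      rw [← hzb, e.symm_apply_apply]
      exact hz
    · intro z hz
      obtain ⟨c, hc1, hc2⟩ := hb2 (e z) ⟨z, hz, rfl⟩
      refine ⟨c, ?_, hc2⟩
      have := congrArg e.symm hc1
      rw [e.symm_apply_apply, map_sum] at this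
      rw [this]
      exact Finset.sum_congr rfl fun i _ => map_smul e.symm _ _
  rintro d ⟨X, i1, i2, hX, rfl⟩
  obtain ⟨T, hT⟩ := Pool.Agent.BM.exists_equiv_of_position (n := n) hn D hpos X hX
  refine le_trans (csInf_le ⟨0, ?_⟩ ⟨T, rfl⟩) hT
  rintro e ⟨S, rfl⟩
  positivity

/-- The bound `4 n ^ (2/3)`, for small dimensions. -/
theorem le_upper (n : ℕ) (hn : 1 ≤ n) : ∀ d ∈ distances n, d ≤ 4 * (n : ℝ) ^ (2 / 3 : ℝ) :=
  le_of_cube_basis hn fun _ hc hconv hsymm _ hr hB =>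
    Pool.Agent.Cube.cube_basis hn hc hconv hsymm hr hB

/-- The set of distances is bounded. -/
theorem bdd (n : ℕ) (hn : 1 ≤ n) : BddAbove (distances n) := ⟨_, le_upper n hn⟩

theorem Rinf_le {n : ℕ} {D : ℝ} (h : ∀ d ∈ distances n, d ≤ D) : Rinf n ≤ D :=
  csSup_le ⟨_, Fin n → ℝ, inferInstance, inferInstance, by simp, rfl⟩ h

/-- A lower bound for all isomorphisms is a lower bound for the distance. -/
theorem le_bmDist {n : ℕ} {X : Type} [NormedAddCommGroup X] [NormedSpace ℝ X]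
    (hX : Module.finrank ℝ X = n) (hn : 0 < n) {b : ℝ}
    (h : ∀ T : X ≃L[ℝ] (Fin n → ℝ),
      b ≤ ‖(T : X →L[ℝ] (Fin n → ℝ))‖ * ‖(T.symm : (Fin n → ℝ) →L[ℝ] X)‖) :
    b ≤ bmDist X (Fin n → ℝ) := by
  have : FiniteDimensional ℝ X := Module.finite_of_finrank_pos (by omega)
  refine le_csInf ?_ ?_
  · exact ⟨_, ContinuousLinearEquiv.ofFinrankEq (by simp [hX]), rfl⟩
  · rintro d ⟨T, rfl⟩
    exact h T

/-- `1 ≤ R_∞^n`. -/
theorem one_le (n : ℕ) (hn : 1 ≤ n) : 1 ≤ Rinf n := by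
  have h1 : (1 : ℝ) ≤ bmDist (Fin n → ℝ) (Fin n → ℝ) := by
    refine le_bmDist (by simp) hn fun T => ?_
    have : Nonempty (Fin n) := ⟨⟨0, hn⟩⟩
    have h2 := ContinuousLinearMap.opNorm_comp_le (T.symm : (Fin n → ℝ) →L[ℝ] (Fin n → ℝ))
      (T : (Fin n → ℝ) →L[ℝ] (Fin n → ℝ))
    rw [ContinuousLinearEquiv.coe_symm_comp_coe, ContinuousLinearMap.norm_id] at h2
    rw [mul_comm]
    exact h2
  exact h1.trans (le_csSup (bdd n hn) ⟨Fin n → ℝ, inferInstance, inferInstance, by simp, rfl⟩)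

/-- The lower bound. -/
theorem lower : ∃ c : ℝ, 0 < c ∧ ∀ n : ℕ, 2 ≤ n →
    c * (n : ℝ) ^ (2 / 3 : ℝ) / (Real.log n) ^ (1 / 6 : ℝ) ≤ Rinf n := by
  obtain ⟨c, hc, n0, hn0, H⟩ := Pool.Agent.LL.far_space
  have hn0' : (2 : ℝ) ≤ n0 := by exact_mod_cast hn0
  refine ⟨min c (1 / (2 * n0)), lt_min hc (by positivity), fun n hn => ?_⟩
  have hn' : (2 : ℝ) ≤ n := by exact_mod_cast hn
  have hlog2 : 0.69 < Real.log n := by
    have h1 := Real.log_two_gt_d9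
    have h2 := Real.log_le_log (by norm_num) hn'
    linarith
  have hs : 0 < (Real.log n) ^ (1 / 6 : ℝ) := Real.rpow_pos_of_pos (by linarith) _
  by_cases hnn : n0 ≤ n
  · obtain ⟨N, X, hX, hT⟩ := H n hnn
    have h1 := le_bmDist hX (by omega) hT
    refine le_trans ?_ (h1.trans (le_csSup (bdd n (by omega))
      ⟨X, inferInstance, inferInstance, hX, rfl⟩))
    gcongr
    exact min_le_left _ _
  · push Not at hnn
    refine le_trans ?_ (one_le n (by omega))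
    have hnn' : (n : ℝ) ≤ n0 := by exact_mod_cast hnn.le
    rw [div_le_one hs]
    have h1 : (n : ℝ) ^ (2 / 3 : ℝ) ≤ n := by
      calc (n : ℝ) ^ (2 / 3 : ℝ) ≤ (n : ℝ) ^ (1 : ℝ) :=
            Real.rpow_le_rpow_of_exponent_le (by linarith) (by norm_num)
        _ = n := Real.rpow_one _
    have h2 : (1 : ℝ) / 2 ≤ (Real.log n) ^ (1 / 6 : ℝ) := by
      have h3 : ((1 : ℝ) / 2) = (((1 : ℝ) / 2) ^ (6 : ℝ)) ^ (1 / 6 : ℝ) := by
        rw [← Real.rpow_mul (by norm_num)]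
        norm_num
      rw [h3]
      apply Real.rpow_le_rpow (by positivity) _ (by norm_num)
      have h4 : ((1 : ℝ) / 2) ^ (6 : ℝ) = 1 / 64 := by
        rw [show (6 : ℝ) = ((6 : ℕ) : ℝ) by norm_num, Real.rpow_natCast]
        norm_num
      rw [h4]
      linarith
    calc min c (1 / (2 * n0)) * (n : ℝ) ^ (2 / 3 : ℝ) ≤ 1 / (2 * n0) * n0 := by
          gcongr
          · exact min_le_right _ _
          · linarith
      _ = 1 / 2 := by field_simp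
      _ ≤ _ := h2

/-- The upper bound. -/
theorem upper : ∃ C : ℝ, 0 < C ∧ ∀ n : ℕ, 2 ≤ n →
    Rinf n ≤ C * (n : ℝ) ^ (2 / 3 : ℝ) / (Real.log n) ^ (1 / 6 : ℝ) := by
  obtain ⟨C, hC, n0, H⟩ := Pool.Agent.RU.cube_basis_sharp
  refine ⟨max C (4 * (1 + Real.log (n0 + 2)) ^ (1 / 6 : ℝ)), lt_max_of_lt_left hC,
    fun n hn => ?_⟩
  have hn' : (2 : ℝ) ≤ n := by exact_mod_cast hn
  have hlog : 0 < Real.log n := Real.log_pos (by linarith)
  have hs : 0 < (Real.log n) ^ (1 / 6 : ℝ) := Real.rpow_pos_of_pos hlog _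
  by_cases hnn : n0 ≤ n
  · refine Rinf_le (le_of_cube_basis (by omega) fun B hc hconv hsymm r hr hB => ?_)
    obtain ⟨b, hb, hb2⟩ := H n hnn B hc hconv hsymm r hr hB
    refine ⟨b, hb, fun z hz => ?_⟩
    obtain ⟨c, hc1, hc2⟩ := hb2 z hz
    refine ⟨c, hc1, hc2.trans ?_⟩
    unfold Pool.Agent.RU.RR
    rw [mul_div_assoc]
    refine mul_le_mul_of_nonneg_right (le_max_left _ _) (by positivity)
  · push Not at hnn
    have hnn' : (n : ℝ) ≤ n0 + 2 := by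
      have : (n : ℝ) ≤ n0 := by exact_mod_cast hnn.le
      linarith
    refine (Rinf_le (le_upper n (by omega))).trans ?_
    rw [le_div_iff₀ hs]
    have h1 : (Real.log n) ^ (1 / 6 : ℝ) ≤ (1 + Real.log (n0 + 2)) ^ (1 / 6 : ℝ) := by
      refine Real.rpow_le_rpow hlog.le ?_ (by norm_num)
      have := Real.log_le_log (by linarith) hnn'
      linarith
    calc 4 * (n : ℝ) ^ (2 / 3 : ℝ) * (Real.log n) ^ (1 / 6 : ℝ)
        ≤ 4 * (n : ℝ) ^ (2 / 3 : ℝ) * (1 + Real.log (n0 + 2)) ^ (1 / 6 : ℝ) :=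
          mul_le_mul_of_nonneg_left h1 (by positivity)
      _ = 4 * (1 + Real.log (n0 + 2)) ^ (1 / 6 : ℝ) * (n : ℝ) ^ (2 / 3 : ℝ) := by ring
      _ ≤ _ := mul_le_mul_of_nonneg_right (le_max_right _ _) (by positivity)

/-- The exact order of the maximal distance to the cube:
`c n ^ (2/3) / (log n) ^ (1/6) ≤ R_∞^n ≤ C n ^ (2/3) / (log n) ^ (1/6)` for every `n ≥ 2`. -/
theorem result : ∃ c C : ℝ, 0 < c ∧ 0 < C ∧ ∀ n : ℕ, 2 ≤ n →
    BddAbove (distances n) ∧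
      c * (n : ℝ) ^ (2 / 3 : ℝ) / (Real.log n) ^ (1 / 6 : ℝ) ≤ Rinf n ∧
      Rinf n ≤ C * (n : ℝ) ^ (2 / 3 : ℝ) / (Real.log n) ^ (1 / 6 : ℝ) := by
  obtain ⟨c, hc, h1⟩ := lower
  obtain ⟨C, hC, h2⟩ := upper
  exact ⟨c, C, hc, hC, fun n hn => ⟨bdd n (by omega), h1 n hn, h2 n hn⟩⟩

end Pool.Agent.Results.MP_a64d16_an.ExactOrder
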